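import Pool.Agent.H21.TU.Int

/-!
# Project FULL: shuffles

`E a b m c s t` is the sum over the monotone lattice paths from `(0,0)` to `(a,b)` (with sign) of
`c` at the sequence `m (s i) (t j)` along the path. The indices are shifted by one: `E a b` is
about the paths to `(a - 1, b - 1)`, and `E 0 b = E a 0 = 0`.
-/

set_option autoImplicit false

namespace Pool.Agent.H10.FU

open Pool.Agent.H21.TU (K del sh Dep d pb Ch sh_zero sh_sh del_zero)

variable {V U W F : Type*} [Field F]

/-- fix the first entry -/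
def cns (w : W) (x : ℕ → W) : ℕ → W := fun j => if j = 0 then w else x (j - 1)

/-- fix the first entry of a cochain -/
def fx (w : W) (c : K W F) : K W F := fun x => c (cns w x)

theorem cns_zero (w : W) (x : ℕ → W) : cns w x 0 = w := rfl

theorem cns_succ (w : W) (x : ℕ → W) (j : ℕ) : cns w x (j + 1) = x j := rfl

theorem cns_sh (x : ℕ → W) : cns (x 0) (sh 1 x) = x := by
  funext j
  rcases j with _ | j
  · rfl
  · rfl

theorem del_cns_zero (w : W) (x : ℕ → W) : del 0 (cns w x) = x := by
  funext j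
  rfl

theorem del_cns_succ (w : W) (x : ℕ → W) (i : ℕ) : del (i + 1) (cns w x) = cns w (del i x) := by
  funext j
  rcases j with _ | j
  · simp [del, cns]
  · simp only [del, cns_succ]
    by_cases h : j < i
    · rw [if_pos (by omega), if_pos h]
    · rw [if_neg (by omega), if_neg h]

theorem fx_dep {p : ℕ} {c : K W F} (h : Dep (p + 1) c) (w : W) : Dep p (fx w c) := by
  intro s t hst
  refine h _ _ fun i hi => ?_
  rcases i with _ | i
  · rfl
  · exact hst i (by omega)

/-- coboundary and the first entry -/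
theorem fx_d (p : ℕ) (c : K W F) (w : W) (x : ℕ → W) :
    fx w (d (p + 1) c) x = c x - d p (fx w c) x := by
  unfold fx d
  rw [Finset.sum_range_succ', del_cns_zero, pow_zero, one_mul, add_comm, sub_eq_add_neg]
  congr 1
  rw [← Finset.sum_neg_distrib]
  refine Finset.sum_congr rfl fun i _ => ?_
  rw [del_cns_succ, pow_succ]
  ring

/-- the sum over the shuffles (indices shifted by one) -/
def E (m : V → U → W) : ℕ → ℕ → K W F → (ℕ → V) → (ℕ → U) → F
  | 0, _, _, _, _ => 0
  | _ + 1, 0, _, _, _ => 0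
  | a + 1, b + 1, c, s, t =>
    (if a = 0 ∧ b = 0 then c (fun _ => m (s 0) (t 0)) else 0) +
      E m a (b + 1) (fx (m (s 0) (t 0)) c) (sh 1 s) t +
      (-1) ^ a * E m (a + 1) b (fx (m (s 0) (t 0)) c) s (sh 1 t)

variable (m : V → U → W)

theorem E_zero_left (b : ℕ) (c : K W F) (s : ℕ → V) (t : ℕ → U) : E m 0 b c s t = 0 := by
  rw [E]

theorem E_zero_right (a : ℕ) (c : K W F) (s : ℕ → V) (t : ℕ → U) : E m a 0 c s t = 0 := by
  rcases a with _ | a
  · rw [E]
  · rw [E]

theorem E_succ (a b : ℕ) (c : K W F) (s : ℕ → V) (t : ℕ → U) : E m (a + 1) (b + 1) c s t =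
    (if a = 0 ∧ b = 0 then c (fun _ => m (s 0) (t 0)) else 0) +
      E m a (b + 1) (fx (m (s 0) (t 0)) c) (sh 1 s) t +
      (-1) ^ a * E m (a + 1) b (fx (m (s 0) (t 0)) c) s (sh 1 t) := by
  rw [E]

theorem E_one_one (c : K W F) (s : ℕ → V) (t : ℕ → U) : E m 1 1 c s t = c (fun _ => m (s 0) (t 0)) := by
  rw [E_succ, E_zero_left, E_zero_right]
  simp

theorem E_add (a b : ℕ) (c c' : K W F) (s : ℕ → V) (t : ℕ → U) :
    E m a b (c + c') s t = E m a b c s t + E m a b c' s t := by
  induction a, b, c, s, t using E.induct (m := m) generalizing c' with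
  | case1 b c s t => simp [E_zero_left]
  | case2 a c s t => simp [E_zero_right]
  | case3 a b c s t ih1 ih2 =>
    rw [E_succ, E_succ, E_succ]
    have h1 : fx (m (s 0) (t 0)) (c + c') = fx (m (s 0) (t 0)) c + fx (m (s 0) (t 0)) c' := rfl
    rw [h1, ih1, ih2]
    split_ifs
    · simp only [Pi.add_apply]; ring
    · ring

theorem E_smul (a b : ℕ) (r : F) (c : K W F) (s : ℕ → V) (t : ℕ → U) :
    E m a b (r • c) s t = r * E m a b c s t := by
  induction a, b, c, s, t using E.induct (m := m) with
  | case1 b c s t => simp [E_zero_left]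
  | case2 a c s t => simp [E_zero_right]
  | case3 a b c s t ih1 ih2 =>
    rw [E_succ, E_succ]
    have h1 : fx (m (s 0) (t 0)) (r • c) = r • fx (m (s 0) (t 0)) c := rfl
    rw [h1, ih1, ih2]
    split_ifs
    · simp only [Pi.smul_apply, smul_eq_mul]; ring
    · ring

theorem E_sub (a b : ℕ) (c c' : K W F) (s : ℕ → V) (t : ℕ → U) :
    E m a b (c - c') s t = E m a b c s t - E m a b c' s t := by
  have h : c - c' = c + (-1 : F) • c' := by
    funext x; simp [sub_eq_add_neg]
  rw [h, E_add, E_smul]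
  ring

/-- the sequence `x` follows a path (indices shifted by one) -/
def Pa (m : V → U → W) : ℕ → ℕ → (ℕ → V) → (ℕ → U) → (ℕ → W) → Prop
  | 0, _, _, _, _ => False
  | _ + 1, 0, _, _, _ => False
  | a + 1, b + 1, s, t, x => x 0 = m (s 0) (t 0) ∧
    ((a = 0 ∧ b = 0) ∨ Pa m a (b + 1) (sh 1 s) t (sh 1 x) ∨ Pa m (a + 1) b s (sh 1 t) (sh 1 x))

/-- `E` depends only on the values on the paths -/
theorem E_congr (a b : ℕ) {c c' : K W F} (hc : Dep (a + b - 2) c) (hc' : Dep (a + b - 2) c')
    (s : ℕ → V) (t : ℕ → U) (h : ∀ x, Pa m a b s t x → c x = c' x) :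
    E m a b c s t = E m a b c' s t := by
  induction a, b, c, s, t using E.induct (m := m) generalizing c' with
  | case1 b c s t => simp [E_zero_left]
  | case2 a c s t => simp [E_zero_right]
  | case3 a b c s t ih1 ih2 =>
    rw [E_succ, E_succ]
    have hp : ∀ {c : K W F}, Dep (a + 1 + (b + 1) - 2) c → (0 < a + b) →
        Dep (a + b - 1) (fx (m (s 0) (t 0)) c) := by
      intro c hc h0
      exact fx_dep (hc.mono (by omega)) _
    have e1 : (if a = 0 ∧ b = 0 then c (fun _ => m (s 0) (t 0)) else 0) =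
        (if a = 0 ∧ b = 0 then c' (fun _ => m (s 0) (t 0)) else 0) := by
      split_ifs with h0
      · refine h _ ?_
        rw [Pa]
        exact ⟨rfl, Or.inl h0⟩
      · rfl
    have e2 : E m a (b + 1) (fx (m (s 0) (t 0)) c) (sh 1 s) t =
        E m a (b + 1) (fx (m (s 0) (t 0)) c') (sh 1 s) t := by
      rcases Nat.eq_zero_or_pos a with ha | ha
      · subst ha; rw [E_zero_left, E_zero_left]
      · have e3 : a + (b + 1) - 2 = a + b - 1 := by omega
        refine ih1 (by rw [e3]; exact hp hc (by omega)) (by rw [e3]; exact hp hc' (by omega)) ?_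
        intro x hx
        refine h (cns (m (s 0) (t 0)) x) ?_
        rw [Pa]
        exact ⟨rfl, Or.inr (Or.inl hx)⟩
    have e3 : E m (a + 1) b (fx (m (s 0) (t 0)) c) s (sh 1 t) =
        E m (a + 1) b (fx (m (s 0) (t 0)) c') s (sh 1 t) := by
      rcases Nat.eq_zero_or_pos b with hb | hb
      · subst hb; rw [E_zero_right, E_zero_right]
      · have e3 : a + 1 + b - 2 = a + b - 1 := by omega
        refine ih2 (by rw [e3]; exact hp hc (by omega)) (by rw [e3]; exact hp hc' (by omega)) ?_
        intro x hx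
        refine h (cns (m (s 0) (t 0)) x) ?_
        rw [Pa]
        exact ⟨rfl, Or.inr (Or.inr hx)⟩
    rw [e1, e2, e3]

omit [Field F] in
theorem sh_del_succ (i : ℕ) (s : ℕ → V) : sh 1 (del (i + 1) s) = del i (sh 1 s) := by
  funext j
  simp only [sh, del]
  by_cases h : j < i
  · rw [if_pos (by omega), if_pos h]
  · rw [if_neg (by omega), if_neg h]

omit [Field F] in
theorem del_succ_zero (i : ℕ) (s : ℕ → V) : del (i + 1) s 0 = s 0 := by
  simp [del]

theorem E_q1 (a b : ℕ) (hab : 2 ≤ a + b) (c : K W F) (s : ℕ → V) (t : ℕ → U) :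
    ∑ i ∈ Finset.range a, (-1) ^ (i + 1) * E m a (b + 1) c (del (i + 1) s) t =
      - ∑ i ∈ Finset.range a, (-1) ^ i *
          E m (a - 1) (b + 1) (fx (m (s 0) (t 0)) c) (del i (sh 1 s)) t -
        (-1) ^ a * ∑ i ∈ Finset.range a, (-1) ^ (i + 1) *
          E m a b (fx (m (s 0) (t 0)) c) (del (i + 1) s) (sh 1 t) := by
  rcases a with _ | a
  · simp
  · rw [← Finset.sum_neg_distrib, Finset.mul_sum, ← Finset.sum_sub_distrib]
    refine Finset.sum_congr rfl fun i _ => ?_
    rw [E_succ, if_neg (by omega), del_succ_zero, sh_del_succ, Nat.add_sub_cancel]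
    ring

theorem E_q2 (a b : ℕ) (hab : 2 ≤ a + b) (c : K W F) (s : ℕ → V) (t : ℕ → U) :
    ∑ j ∈ Finset.range b, (-1) ^ (j + 1) * E m (a + 1) b c s (del (j + 1) t) =
      ∑ j ∈ Finset.range b, (-1) ^ (j + 1) *
          E m a b (fx (m (s 0) (t 0)) c) (sh 1 s) (del (j + 1) t) -
        (-1) ^ a * ∑ j ∈ Finset.range b, (-1) ^ j *
          E m (a + 1) (b - 1) (fx (m (s 0) (t 0)) c) s (del j (sh 1 t)) := by
  rcases b with _ | b
  · simp
  · rw [Finset.mul_sum, ← Finset.sum_sub_distrib]
    refine Finset.sum_congr rfl fun j _ => ?_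
    rw [E_succ, if_neg (by omega), del_succ_zero, sh_del_succ, Nat.add_sub_cancel]
    ring

/-- **Eilenberg–Zilber**: the shuffles commute with the coboundary. -/
theorem E_d (a b : ℕ) (hab : 2 < a + b) (c : K W F) (hc : Dep (a + b - 3) c) (s : ℕ → V) (t : ℕ → U) :
    E m a b (d (a + b - 3) c) s t =
      ∑ i ∈ Finset.range a, (-1) ^ i * E m (a - 1) b c (del i s) t -
        (-1) ^ a * ∑ j ∈ Finset.range b, (-1) ^ j * E m a (b - 1) c s (del j t) := by
  obtain ⟨N, hN⟩ : ∃ N, a + b = N + 3 := ⟨a + b - 3, by omega⟩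
  induction N generalizing a b c s t with
  | zero =>
    rcases a with _ | a
    · simp [E_zero_left]
    rcases b with _ | b
    · simp [E_zero_right]
    have h1 : (a = 1 ∧ b = 0) ∨ (a = 0 ∧ b = 1) := by omega
    have h0 : ∀ (w : W) (x : ℕ → W), c (cns w x) = c (fun _ => w) := fun w x =>
      hc _ _ (fun i hi => by
        have : i = 0 := by omega
        subst this; rfl)
    have hd : ∀ (w : W) (x : ℕ → W), fx w (d 0 c) x = c x - c (fun _ => w) := by
      intro w x
      unfold fx d
      rw [Finset.sum_range_succ, Finset.sum_range_one, del_cns_zero,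
        show (1 : ℕ) = 0 + 1 from rfl, del_cns_succ, h0]
      ring
    rcases h1 with ⟨rfl, rfl⟩ | ⟨rfl, rfl⟩
    · have d1 : del 1 s 0 = s 0 := by simp [del]
      have d0 : del 0 s 0 = s 1 := by simp [del]
      have s1 : sh 1 s 0 = s 1 := rfl
      have h11 : ∀ s t, E m (1 + 1 - 1) (0 + 1) c s t = c (fun _ => m (s 0) (t 0)) :=
        fun s t => E_one_one m c s t
      have h20 : ∀ s t, E m (1 + 1) (0 + 1 - 1) c s t = 0 := fun s t => E_zero_right m _ c s t
      rw [E_succ, if_neg (by omega), E_zero_right, show 1 + 1 + (0 + 1) - 3 = 0 from rfl, E_one_one,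
        hd, Finset.sum_range_succ, Finset.sum_range_one, Finset.sum_range_one, h11, h11, h20, d1,
        d0, s1]
      ring
    · have d1 : del 1 t 0 = t 0 := by simp [del]
      have d0 : del 0 t 0 = t 1 := by simp [del]
      have s1 : sh 1 t 0 = t 1 := rfl
      have h11 : ∀ s t, E m (0 + 1) (1 + 1 - 1) c s t = c (fun _ => m (s 0) (t 0)) :=
        fun s t => E_one_one m c s t
      have h20 : ∀ s t, E m (0 + 1 - 1) (1 + 1) c s t = 0 := fun s t => E_zero_left m _ c s t
      rw [E_succ, if_neg (by omega), E_zero_left, show 0 + 1 + (1 + 1) - 3 = 0 from rfl, E_one_one,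
        hd, Finset.sum_range_one, Finset.sum_range_succ, Finset.sum_range_one, h11, h11, h20, d1,
        d0, s1]
      ring
  | succ N ih =>
    rcases a with _ | a
    · simp [E_zero_left]
    rcases b with _ | b
    · simp [E_zero_right]
    have e0 : a + 1 + (b + 1) - 3 = N + 1 := by omega
    rw [e0]
    have hw : fx (m (s 0) (t 0)) (d (N + 1) c) = c - d N (fx (m (s 0) (t 0)) c) := by
      funext x
      exact fx_d N c _ x
    have hcd : Dep N (fx (m (s 0) (t 0)) c) := fx_dep (by rw [← e0]; exact hc) _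
    have i1 := ih a (b + 1) (by omega) (fx (m (s 0) (t 0)) c)
      (by rw [show a + (b + 1) - 3 = N by omega]; exact hcd) (sh 1 s) t (by omega)
    have i2 := ih (a + 1) b (by omega) (fx (m (s 0) (t 0)) c)
      (by rw [show a + 1 + b - 3 = N by omega]; exact hcd) s (sh 1 t) (by omega)
    rw [show a + (b + 1) - 3 = N by omega] at i1
    rw [show a + 1 + b - 3 = N by omega] at i2
    rw [E_succ, if_neg (by omega), hw, E_sub, E_sub, i1, i2]
    simp only [Nat.add_sub_cancel]
    have q1 := E_q1 m a b (by omega) c s t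
    have q2 := E_q2 m a b (by omega) c s t
    rw [Finset.sum_range_succ' (fun i => (-1) ^ i * E m a (b + 1) c (del i s) t) a,
      Finset.sum_range_succ' (fun j => (-1) ^ j * E m (a + 1) b c s (del j t)) b, q1, q2,
      Finset.sum_range_succ' (fun j => (-1) ^ j * E m a b (fx (m (s 0) (t 0)) c) (sh 1 s)
        (del j t)) b,
      Finset.sum_range_succ' (fun i => (-1) ^ i * E m a b (fx (m (s 0) (t 0)) c) (del i s)
        (sh 1 t)) a]
    simp only [del_zero, pow_zero, one_mul]
    have e2 : ((-1 : F) ^ a) * (-1) ^ a = 1 := by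
      rw [← mul_pow]; norm_num
    rw [pow_succ]
    linear_combination (0 : F) * e2

end Pool.Agent.H10.FU
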