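import Pool.Agent.H10.TU.LvmLow

/-!
# Level `m`, any parity: gain and assembly
-/

set_option autoImplicit false

open Filter Topology Metric

namespace Pool.Agent.H10.FU

open Pool.Agent.H10.TU
open Pool.Agent.H47.ST (HR Lv lam ps rl PerL Iz fS zw qK QK Lc)
open Pool.Agent.H21.TU
open Pool.Agent.H47.QG (Pt action flw oseq Gen ind hess Zn MeanIdx)

section

variable {E : Type*} [NormedAddCommGroup E] [NormedSpace ℝ E]

/-- the three estimates on the walls -/
theorem gain_mo [FiniteDimensional ℝ E] {f : E → ℝ} {z : E} {d : ℕ}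
    {co : E →ₗ[ℝ] (Fin d → ℝ)} {hh : E → Fin d → ℝ} {ρ : ℝ} (h : L1 f z co hh ρ)
    (hf : Continuous f) {n : ℕ} (X Y : E →ₗ[ℝ] (Fin n → ℝ)) (a0 : Fin n) :
    ∃ η > 0, ∃ r0 > 0, ∃ k0 : ℕ, 0 < k0 ∧ ∀ m : ℕ, ∀ [NeZero m]
      (kk : Fin m), k0 ≤ (kk : ℕ) → (kk : ℕ) + k0 ≤ m →
      ∀ w : Fin m → E, (∀ i, ‖w i - z‖ ≤ ρ) → (∀ i, co (w i - z) = hh (w i)) →
      ∀ t, 0 ≤ t → t ≤ r0 → (∀ i, i ≠ 0 → ∀ a, X (w i) a - X (w (i - 1)) a =
        if i = kk ∧ a = a0 then t else 0) →
      (m * f z - η / 4 ≤ Amf f X Y w) ∧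
      ((∃ i, ρ / 2 ≤ ‖w i - z‖) → m * f z + η / 2 ≤ Amf f X Y w) ∧
      (t = r0 → m * f z + η / 2 ≤ Amf f X Y w) ∧ (t = 0 → m * f z ≤ Amf f X Y w) := by
  have hρ := h.pos
  obtain ⟨CX, hCX, hX⟩ := lin_bd X
  obtain ⟨CY, hCY, hY⟩ := lin_bd Y
  obtain ⟨η, hη, hg⟩ := h.gain hf (s := ρ / 2) (by positivity)
  set r0 : ℝ := η / (8 * CY * ρ) with hr0
  have hr0p : 0 < r0 := by positivity
  obtain ⟨η2, hη2, hg2⟩ := h.gain hf (s := r0 / (2 * CX)) (by positivity)
  refine ⟨η, hη, r0, hr0p, ⌈η / η2⌉₊ + 1, Nat.succ_pos _, ?_⟩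
  intro m _ kk hkk hm w hw hco t ht0 htr hX1
  have hkk0 : kk ≠ 0 := by
    intro h0
    have h1 : ((0 : Fin m) : ℕ) = 0 := Fin.val_zero _
    rw [h0, h1] at hkk
    omega
  have hkη : ∀ k : ℕ, ⌈η / η2⌉₊ + 1 ≤ k → η ≤ k * η2 := by
    intro k hk
    have h1 : η / η2 ≤ k := by
      have h2 : ((⌈η / η2⌉₊ + 1 : ℕ) : ℝ) ≤ k := Nat.cast_le.2 hk
      push_cast at h2
      linarith [Nat.le_ceil (η / η2)]
    rwa [div_le_iff₀ hη2] at h1
  have hA : Amf f X Y w = ∑ i, f (w i) + t * (Y (w kk) a0 - Y (w 0) a0) := by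
    unfold Amf
    rw [cpl_eq X Y w t kk hkk0 a0 hX1]
  have hc : |t * (Y (w kk) a0 - Y (w 0) a0)| ≤ η / 4 := by
    have e1 : Y (w kk) a0 - Y (w 0) a0 = Y (w kk - w 0) a0 := by rw [map_sub]; rfl
    have e2 : ‖w kk - w 0‖ ≤ 2 * ρ := by
      have e3 : w kk - w 0 = (w kk - z) - (w 0 - z) := by abel
      rw [e3]
      exact (norm_sub_le _ _).trans (by linarith [hw kk, hw 0])
    rw [e1, abs_mul, abs_of_nonneg ht0]
    calc t * |Y (w kk - w 0) a0| ≤ r0 * (CY * (2 * ρ)) := by
          refine mul_le_mul htr ((hY _ _).trans ?_) (abs_nonneg _) hr0p.le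
          exact mul_le_mul_of_nonneg_left e2 hCY.le
      _ = η / 4 := by
          rw [hr0]
          field_simp
          ring
  have hc1 := abs_le.1 hc
  have hge : ∀ i, f z ≤ f (w i) := fun i => (h.ge _ (hw i) (hco i)).1
  have hsum : (m : ℝ) * f z ≤ ∑ i, f (w i) := by
    have h1 : ∑ _i : Fin m, f z ≤ ∑ i, f (w i) := Finset.sum_le_sum fun i _ => hge i
    rwa [Finset.sum_const, Finset.card_univ, Fintype.card_fin, nsmul_eq_mul] at h1
  have hsum2 : ∀ (P : Finset (Fin m)) (s : ℝ), (∀ i ∈ P, f z + s ≤ f (w i)) →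
      (m : ℝ) * f z + P.card * s ≤ ∑ i, f (w i) := by
    intro P s hP
    have h1 : ∑ i : Fin m, (f z + if i ∈ P then s else 0) ≤ ∑ i, f (w i) := by
      refine Finset.sum_le_sum fun i _ => ?_
      by_cases hi : i ∈ P
      · rw [if_pos hi]; exact hP i hi
      · rw [if_neg hi, add_zero]; exact hge i
    rw [Finset.sum_add_distrib, Finset.sum_const, Finset.card_univ, Fintype.card_fin,
      nsmul_eq_mul, Finset.sum_ite_mem, Finset.univ_inter, Finset.sum_const, nsmul_eq_mul] at h1
    exact h1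
  refine ⟨?_, ?_, ?_, ?_⟩
  · rw [hA]; linarith [hc1.1]
  · rintro ⟨i, hi⟩
    have h1 := hsum2 {i} η (fun j hj => by
      rw [Finset.mem_singleton] at hj
      subst hj
      exact hg _ (hw _) hi (hco _))
    rw [Finset.card_singleton, Nat.cast_one, one_mul] at h1
    rw [hA]; linarith [hc1.1]
  · intro htr0
    have hpos := pos_eq X w t kk hkk0 a0 hX1
    have hfar : ∀ i, r0 / 2 ≤ |X (w i) a0 - X z a0| → f z + η2 ≤ f (w i) := by
      intro i hi
      refine hg2 _ (hw i) ?_ (hco i)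
      have e1 : X (w i) a0 - X z a0 = X (w i - z) a0 := by rw [map_sub]; rfl
      rw [e1] at hi
      have e2 := hX (w i - z) a0
      rw [div_le_iff₀ (by positivity)]
      linarith
    have hP : ∃ P : Finset (Fin m), ⌈η / η2⌉₊ + 1 ≤ P.card ∧ ∀ i ∈ P, f z + η2 ≤ f (w i) := by
      by_cases hx : r0 / 2 ≤ |X (w 0) a0 - X z a0|
      · refine ⟨Finset.Iio kk, by rw [Fin.card_Iio]; exact hkk, fun i hi => hfar i ?_⟩
        rw [Finset.mem_Iio] at hi
        rw [hpos i, if_neg (not_le.2 hi), add_zero]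
        exact hx
      · refine ⟨Finset.Ici kk, by rw [Fin.card_Ici]; omega, fun i hi => hfar i ?_⟩
        rw [Finset.mem_Ici] at hi
        rw [hpos i, if_pos hi, htr0]
        push Not at hx
        rw [abs_lt] at hx
        refine le_trans ?_ (le_abs_self _)
        linarith [hx.1]
    obtain ⟨P, hPc, hP⟩ := hP
    have h1 := hsum2 P η2 hP
    have h2 := hkη P.card hPc
    rw [hA]; linarith [hc1.1]
  · intro ht
    rw [hA, ht, zero_mul, add_zero]
    exact hsum

end

/-- **Level `m`**: existence of classes. -/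
theorem low_abs_o {E : Type*} [NormedAddCommGroup E] [NormedSpace ℝ E] [FiniteDimensional ℝ E]
    {f : E → ℝ} {z : E} {d : ℕ} {co : E →ₗ[ℝ] (Fin d → ℝ)} {hh : E → Fin d → ℝ} {ρ₀ : ℝ}
    (h : L1 f z co hh ρ₀) (hf : Continuous f) {n : ℕ} (X Y : E →ₗ[ℝ] (Fin n → ℝ))
    (a0 : Fin n) :
    ∃ k0 > 0, ∀ m : ℕ, ∀ [NeZero m] (kk : Fin m), k0 ≤ (kk : ℕ) → (kk : ℕ) + k0 ≤ m →
      ∀ {ι : Type} [Fintype ι] [DecidableEq ι]
      (ck : (ι → ℝ) ≃ₗ[ℝ] (Fin m → E)), (∀ v, ‖ck v‖ = ‖v‖) → ∀ A : (ι → ℝ) → ℝ,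
      (∀ y, A y = Amf f X Y (ck y)) → ∀ zz, (ck zz = fun _ => z) →
      ∀ Kl : List ((ι → ℝ) →ₗ[ℝ] ℝ), Kl.length + (m * d + (m - 1) * n) = Fintype.card ι →
      ∀ c > 0, ∀ r > 0, (∀ v, ‖v‖ ≤ r → (∀ φ ∈ Kl, φ v = 0) →
        A (zz + v) ≤ A zz - c * ‖v‖ ^ 2) →
      ∀ (L : AddSubgroup (ι → ℤ)) (q Q : (ι → ℝ) → ℝ), Continuous q → Continuous Q →
      PerL L q → PerL L Q →
      ∃ ε > 0, ∃ R₀ : ℝ, ∀ (F : Type) [Field F] (g : (ι → ℝ) → ℝ), Continuous g → PerL L g →
        (∀ y, |g y - A y| ≤ ε) → ∀ R ≥ R₀, ∀ V : Finset ℝ,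
        ∃ lo hi : ℝ, lo < hi ∧ lo ∉ V ∧ hi ∉ V ∧ ∀ᶠ M : ℕ in atTop,
          ¬ HR F (lam L M) (Lv q Q g R R hi M) (Lv q Q g R R lo M)
            (m * d + (m - 1) * n - 1) 0 := by
  set ρ : ℝ := min ρ₀ (1 / 8) with hρdef
  have hρ0 := h.pos
  have hρ : 0 < ρ := by positivity
  have hρ4 : ρ < 1 / 4 := lt_of_le_of_lt (min_le_right _ _) (by norm_num)
  have h' := h.mono hρ (min_le_left _ _)
  obtain ⟨η, hη, r0, hr0, k0, hk0, hgain⟩ := gain_mo h' hf X Y a0
  refine ⟨k0, hk0, ?_⟩
  intro m _ kk hkk hkm ι _ _ ck hck A hA zz hzz Kl hKl c hc r hr hneg L q Q hq hQ hqp hQp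
  have hkk0 : kk ≠ 0 := by
    intro h0
    have h1 := congrArg Fin.val h0
    rw [Fin.val_zero] at h1
    omega
  obtain ⟨ρ3, hρ3, hmix⟩ := mixed_m h' X Y a0 m kk hkk0 hc
  have hgain' := hgain m kk hkk hkm
  set ρ2 : ℝ := min (min ρ3 r) (ρ / 4) with hρ2def
  have hρ2 : 0 < ρ2 := by positivity
  have hρ23 : ρ2 ≤ ρ3 := (min_le_left _ _).trans (min_le_left _ _)
  have hρ2r : ρ2 ≤ r := (min_le_left _ _).trans (min_le_right _ _)
  have hρ2ρ : ρ2 ≤ ρ / 4 := min_le_right _ _
  set κ : ℝ := m * f z with hκ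
  have hAz : A zz = κ := by
    rw [hA, hzz]
    unfold Amf
    rw [cpl_eq X Y (fun _ => z) 0 kk hkk0 a0 (fun i _ a => by simp), zero_mul, add_zero,
      Finset.sum_const, Finset.card_univ, Fintype.card_fin, nsmul_eq_mul]
  -- no common zero
  have hshell : ∀ y, ‖y - zz‖ ≤ ρ2 →
      (∀ i j, co (ck y i - z) j * (co (ck y i - z) j - hh (ck y i) j) ≤ 0) →
      (∀ i, i ≠ 0 → ∀ a, xl ck X (i, a) y = 0) → (∀ φ ∈ Kl, φ (y - zz) = 0) → y = zz := by
    intro y hy h1 h2 h3
    have h4 := hmix (ck y) (fun i => (ck_ball ck hck hzz hy i).trans hρ23) h1 h2 (by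
      have h5 := hneg (y - zz) (hy.trans hρ2r) h3
      rw [add_sub_cancel, hAz, hA] at h5
      have h6 : ‖ck y - fun _ => z‖ = ‖y - zz‖ := by rw [← hzz, ← map_sub, hck]
      rw [h6]
      exact h5)
    exact ck.injective (by rw [h4, hzz])
  set W1 : List ((ι → ℝ) → ℝ) := (Finset.univ : Finset (Fin m × Fin d)).toList.map
    (cw ck co hh z) with hW1
  set W2 : List ((ι → ℝ) → ℝ) := (ixl m n kk a0).map (fun p y => xl ck X p y) with hW2
  set Kw : List ((ι → ℝ) → ℝ) := Kl.map (fun φ y => φ (y - zz)) with hKw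
  set φ : (ι → ℝ) → ℝ := fun y => xl ck X (kk, a0) y with hφ
  have hb : W1.length + W2.length = m * d + (m - 1) * n - 1 := by
    have h1 := ixl_length (m := m) (n := n) hkk0 a0
    rw [hW1, hW2, List.length_map, List.length_map, Finset.length_toList, Finset.card_univ,
      Fintype.card_prod, Fintype.card_fin, Fintype.card_fin]
    omega
  have hmn : 1 ≤ (m - 1) * n := by
    have h1 := ixl_length (m := m) (n := n) hkk0 a0
    omega
  have hD : Fintype.card ι = (m * d + (m - 1) * n - 1) + 1 + Kw.length := by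
    rw [hKw, List.length_map]
    omega
  -- the walls are continuous
  have hckc : Continuous ck := ck.toLinearMap.continuous_of_finiteDimensional
  have hckic : ∀ i, Continuous fun y => ck y i := fun i => (continuous_apply i).comp hckc
  have hcoc : Continuous co := co.continuous_of_finiteDimensional
  have hlinc : ∀ φ : (ι → ℝ) →ₗ[ℝ] ℝ, Continuous φ := fun φ => φ.continuous_of_finiteDimensional
  have hcwc : ∀ p, ContinuousOn (cw ck co hh z p) (closedBall zz ρ) := by
    intro p
    unfold cw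
    refine ContinuousOn.sub ?_ ?_
    · exact ((continuous_apply p.2).comp (hcoc.comp ((hckic p.1).sub continuous_const))).continuousOn
    · refine (continuous_apply p.2).comp_continuousOn (h'.cont.comp (hckic p.1).continuousOn ?_)
      intro y hy
      rw [mem_closedBall, dist_eq_norm] at hy ⊢
      exact ck_ball ck hck hzz hy p.1
  -- nonvanishing of the functional
  have hphi : ∀ (F : Type) [Field F], ∀ᶠ M : ℕ in atTop,
      Phi (F := F) (blf M zz (3 * ρ2 / 4)) 0 (fun _ => 1)
        ((W1 ++ φ :: W2 ++ Kw).map (gr M)) ≠ 0 := by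
    intro F _
    set l : List ((ι → ℝ) →ₗ[ℝ] ℝ) := (Finset.univ : Finset (Fin m × Fin d)).toList.map
      (cl ck co) ++ xl ck X (kk, a0) :: (ixl m n kk a0).map (xl ck X) ++ Kl with hl
    set P : List (((ι → ℝ) → ℝ) × ((ι → ℝ) → ℝ)) :=
      ((Finset.univ : Finset (Fin m × Fin d)).toList.map
        (fun p => (cw ck co hh z p, fun y => cl ck co p (y - zz)))) ++
      (φ, fun y => xl ck X (kk, a0) (y - zz)) :: ((ixl m n kk a0).map
        (fun p => ((fun y => xl ck X p y), (fun y => xl ck X p (y - zz))))) ++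
      Kl.map (fun φ => ((fun y => φ (y - zz)), (fun y => φ (y - zz)))) with hP
    have hP1 : P.map Prod.fst = W1 ++ φ :: W2 ++ Kw := by
      rw [hP, hW1, hW2, hKw]
      simp only [List.map_append, List.map_cons, List.map_map]
      rfl
    have hP2 : P.map Prod.snd = l.map fun φ y => φ (y - zz) := by
      rw [hP, hl]
      simp only [List.map_append, List.map_cons, List.map_map]
      rfl
    have hPl : P.length = Fintype.card ι := by
      rw [← List.length_map Prod.fst, hP1, hD]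
      simp only [List.length_append, List.length_cons]
      omega
    have hll : l.length = Fintype.card ι := by
      rw [← hPl, ← List.length_map Prod.snd, hP2, List.length_map]
    have hmem : ∀ y, (∀ p ∈ P, min (p.1 y) (p.2 y) ≤ 0 ∧ 0 ≤ max (p.1 y) (p.2 y)) →
        (∀ i j, co (ck y i - z) j * (co (ck y i - z) j - hh (ck y i) j) ≤ 0) ∧
        (∀ i, i ≠ 0 → ∀ a, xl ck X (i, a) y = 0) ∧ (∀ φ ∈ Kl, φ (y - zz) = 0) := by
      intro y hy
      refine ⟨fun i j => ?_, fun i hi a => ?_, fun ψ hψ => ?_⟩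
      · have h1 := hy (cw ck co hh z (i, j), fun y => cl ck co (i, j) (y - zz)) (by
          rw [hP]
          refine List.mem_append_left _ (List.mem_append_left _ (List.mem_map.2
            ⟨(i, j), Finset.mem_toList.2 (Finset.mem_univ _), rfl⟩)))
        simp only [cw, cl_sub ck co hzz] at h1
        rcases min_le_iff.1 h1.1 with h2 | h2 <;> rcases le_max_iff.1 h1.2 with h3 | h3
        · have : co (ck y i - z) j - hh (ck y i) j = 0 := le_antisymm h2 h3
          rw [this, mul_zero]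
        · exact mul_nonpos_of_nonneg_of_nonpos h3 h2
        · exact mul_nonpos_of_nonpos_of_nonneg h2 h3
        · have : co (ck y i - z) j = 0 := le_antisymm h2 h3
          rw [this, zero_mul]
      · by_cases hia : i = kk ∧ a = a0
        · have h1 := hy (φ, fun y => xl ck X (kk, a0) (y - zz)) (by
            rw [hP]
            exact List.mem_append_left _ (List.mem_append_right _ List.mem_cons_self))
          simp only [hφ, xl_sub ck X hzz, min_self, max_self] at h1
          rw [hia.1, hia.2]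
          exact le_antisymm h1.1 h1.2
        · have h1 := hy ((fun y => xl ck X (i, a) y), (fun y => xl ck X (i, a) (y - zz))) (by
            rw [hP]
            refine List.mem_append_left _ (List.mem_append_right _ (List.mem_cons_of_mem _
              (List.mem_map.2 ⟨(i, a), mem_ixl.2 ⟨hi, hia⟩, rfl⟩))))
          simp only [xl_sub ck X hzz, min_self, max_self] at h1
          exact le_antisymm h1.1 h1.2
      · have h1 := hy ((fun y => ψ (y - zz)), (fun y => ψ (y - zz))) (by
          rw [hP]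
          exact List.mem_append_right _ (List.mem_map.2 ⟨ψ, hψ, rfl⟩))
        simp only [min_self, max_self] at h1
        exact le_antisymm h1.1 h1.2
    have h1 := Phi_pairs F (z := zz) (r1 := ρ2 / 2) (r2 := ρ2) (ρ := 3 * ρ2 / 4)
      ⟨by positivity, by linarith⟩ P hPl.symm (by
        intro p hp
        rw [hP] at hp
        rcases List.mem_append.1 hp with hp | hp
        · rcases List.mem_append.1 hp with hp | hp
          · obtain ⟨p', -, rfl⟩ := List.mem_map.1 hp
            exact ⟨(hcwc p').mono (closedBall_subset_closedBall (by linarith)),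
              ((hlinc (cl ck co p')).comp (continuous_id.sub continuous_const)).continuousOn⟩
          · rcases List.mem_cons.1 hp with rfl | hp
            · exact ⟨(hlinc (xl ck X (kk, a0))).continuousOn,
                ((hlinc (xl ck X (kk, a0))).comp (continuous_id.sub continuous_const)).continuousOn⟩
            · obtain ⟨p', -, rfl⟩ := List.mem_map.1 hp
              exact ⟨(hlinc (xl ck X p')).continuousOn,
                ((hlinc (xl ck X p')).comp (continuous_id.sub continuous_const)).continuousOn⟩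
        · obtain ⟨ψ, -, rfl⟩ := List.mem_map.1 hp
          exact ⟨((hlinc ψ).comp (continuous_id.sub continuous_const)).continuousOn,
            ((hlinc ψ).comp (continuous_id.sub continuous_const)).continuousOn⟩)
      (by
        intro y hy hy2 hy3
        obtain ⟨e1, e2, e3⟩ := hmem y hy3
        have e4 := hshell y (by rwa [mem_closedBall, dist_eq_norm] at hy) e1 e2 e3
        rw [e4, sub_self, norm_zero] at hy2
        linarith) (by linarith) (by linarith)
    have h2 := Phi_lin_ne F l hll (by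
      intro v hv
      by_contra hv0
      have hvn : 0 < ‖v‖ := norm_pos_iff.2 hv0
      have hv' : ∀ ψ ∈ l, ψ ((ρ2 / ‖v‖) • v) = 0 := by
        intro ψ hψ
        rw [map_smul, hv ψ hψ, smul_zero]
      have e4 := hshell (zz + (ρ2 / ‖v‖) • v) (by
        rw [add_sub_cancel_left, norm_smul, norm_div, norm_norm, Real.norm_of_nonneg hρ2.le]
        field_simp
        exact le_refl _)
        (by
          intro i j
          have e5 := hv' (cl ck co (i, j)) (by
            rw [hl]
            exact List.mem_append_left _ (List.mem_append_left _ (List.mem_map.2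
              ⟨(i, j), Finset.mem_toList.2 (Finset.mem_univ _), rfl⟩)))
          have e6 := cl_sub ck co hzz (i, j) (zz + (ρ2 / ‖v‖) • v)
          rw [add_sub_cancel_left, e5] at e6
          simp only at e6
          rw [← e6, zero_mul])
        (by
          intro i hi a
          rw [← xl_sub ck X hzz, add_sub_cancel_left]
          by_cases hia : i = kk ∧ a = a0
          · rw [hia.1, hia.2]
            refine hv' _ ?_
            rw [hl]
            exact List.mem_append_left _ (List.mem_append_right _ List.mem_cons_self)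
          · refine hv' _ ?_
            rw [hl]
            exact List.mem_append_left _ (List.mem_append_right _ (List.mem_cons_of_mem _
              (List.mem_map.2 ⟨(i, a), mem_ixl.2 ⟨hi, hia⟩, rfl⟩))))
        (by
          intro ψ hψ
          rw [add_sub_cancel_left]
          refine hv' _ ?_
          rw [hl]
          exact List.mem_append_right _ hψ)
      have e5 : (ρ2 / ‖v‖) • v = 0 := by
        have := congrArg (fun x => x - zz) e4
        simpa using this
      rcases smul_eq_zero.1 e5 with e6 | e6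
      · rcases div_eq_zero_iff.1 e6 with e7 | e7
        · exact hρ2.ne' e7
        · exact hvn.ne' e7
      · exact hv0 e6) zz (ρ := 3 * ρ2 / 4) (by positivity)
    filter_upwards [h1, h2] with M h3 h4
    rw [hP1, hP2] at h3
    rw [h3]
    exact h4
  obtain ⟨R1, hR1⟩ := bdd_ball hq zz ρ
  obtain ⟨R2, hR2⟩ := bdd_ball hQ.neg zz ρ
  set δ : ℝ := c * ρ2 ^ 2 / 4 with hδ
  have hδ0 : 0 < δ := by positivity
  set ε : ℝ := min (δ / 4) (η / 16) with hε
  have hε0 : 0 < ε := by positivity
  have hεδ : ε ≤ δ / 4 := min_le_left _ _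
  have hεη : ε ≤ η / 16 := min_le_right _ _
  refine ⟨ε, hε0, max R1 R2, ?_⟩
  intro F _ g hg hgp hgA R hR V
  obtain ⟨hi, hhi, hhiV⟩ := (Set.Ioo_infinite (show max (κ - δ + ε) (κ - η / 4) < κ - ε by
    rw [max_lt_iff]; constructor <;> linarith)).exists_notMem_finset V
  obtain ⟨lo, hlo, hloV⟩ := (Set.Ioo_infinite (show κ - η / 2 < κ - η / 4 - ε by
    linarith)).exists_notMem_finset V
  rw [Set.mem_Ioo, max_lt_iff] at hhi
  rw [Set.mem_Ioo] at hlo
  refine ⟨lo, hi, by linarith, hloV, hhiV, ?_⟩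
  have hgA' : ∀ y, A y - ε ≤ g y ∧ g y ≤ A y + ε := fun y => by
    have := abs_le.1 (hgA y)
    constructor <;> linarith
  -- the points on the walls
  have hwall : ∀ y ∈ closedBall zz ρ, (∀ G ∈ W1 ++ W2, G y = 0) → ∀ t, 0 ≤ t → t ≤ r0 →
      φ y = t → (κ - η / 4 ≤ A y) ∧ ((ρ / 2 ≤ ‖y - zz‖) → κ + η / 2 ≤ A y) ∧
      (t = r0 → κ + η / 2 ≤ A y) ∧ (t = 0 → κ ≤ A y) := by
    intro y hy hG t ht0 htr hφt
    rw [mem_closedBall, dist_eq_norm] at hy
    have h1 := hgain' (ck y) (fun i => ck_ball ck hck hzz hy i) (by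
      intro i
      funext j
      have h2 := hG (cw ck co hh z (i, j)) (List.mem_append_left _ (List.mem_map.2
        ⟨(i, j), Finset.mem_toList.2 (Finset.mem_univ _), rfl⟩))
      simp only [cw] at h2
      linarith) t ht0 htr (by
      intro i hi a
      by_cases hia : i = kk ∧ a = a0
      · rw [if_pos hia, hia.1, hia.2]
        exact hφt
      · rw [if_neg hia]
        exact hG (fun y => xl ck X (i, a) y) (List.mem_append_right _ (List.mem_map.2
          ⟨(i, a), mem_ixl.2 ⟨hi, hia⟩, rfl⟩)))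
    rw [← hA] at h1
    exact ⟨h1.1, fun hfar => h1.2.1 (ck_far ck hck hzz hfar), h1.2.2.1, h1.2.2.2⟩
  have hG : Geo L q Q g R R zz κ (η / 4) (κ - hi) lo ρ (ρ / 2) ρ2 W1 W2 Kw φ
      (fun y => φ y - r0) := by
    refine ⟨hq, hQ, hg, hqp, hQp, hgp, ⟨by linarith, by linarith, hρ4, hρ2, by linarith⟩,
      ⟨by linarith, by linarith, by positivity⟩, ?_, ?_, ?_, ?_, ?_, ?_⟩
    · intro G hGm
      have hφc : Continuous φ := hlinc (xl ck X (kk, a0))
      rcases List.mem_cons.1 hGm with rfl | hGm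
      · exact hφc.continuousOn
      rcases List.mem_cons.1 hGm with rfl | hGm
      · exact (hφc.sub continuous_const).continuousOn
      rcases List.mem_append.1 hGm with hGm | hGm
      · rcases List.mem_append.1 hGm with hGm | hGm
        · obtain ⟨p, -, rfl⟩ := List.mem_map.1 hGm
          exact hcwc p
        · obtain ⟨p, -, rfl⟩ := List.mem_map.1 hGm
          exact (hlinc (xl ck X p)).continuousOn
      · obtain ⟨ψ, -, rfl⟩ := List.mem_map.1 hGm
        exact ((hlinc ψ).comp (continuous_id.sub continuous_const)).continuousOn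
    · intro y hy
      have h1 := hR1 y hy
      have h2 := hR2 y hy
      have h3 := (le_max_left R1 R2).trans hR
      have h4 := (le_max_right R1 R2).trans hR
      constructor
      · linarith
      · simp only [Pi.neg_apply] at h2
        linarith
    · intro y hy hG hmin hmax
      have ht0 : 0 ≤ φ y := by
        rcases le_max_iff.1 hmax with h1 | h1
        · exact h1
        · linarith
      have htr : φ y ≤ r0 := by
        rcases min_le_iff.1 hmin with h1 | h1
        · linarith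
        · linarith
      obtain ⟨h1, h2, -, -⟩ := hwall y hy hG (φ y) ht0 htr rfl
      refine ⟨by linarith [(hgA' y).1], fun hfar => ?_⟩
      linarith [(hgA' y).1, h2 hfar]
    · intro y hy hG h0
      obtain ⟨-, -, -, h1⟩ := hwall y hy hG 0 le_rfl hr0.le h0
      linarith [(hgA' y).1, h1 rfl]
    · intro y hy hG h0
      obtain ⟨-, -, h1, -⟩ := hwall y hy hG r0 hr0.le le_rfl (by linarith)
      linarith [(hgA' y).1, h1 rfl]
    · intro y hy hk
      rw [mem_closedBall, dist_eq_norm] at hy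
      have h1 := hneg (y - zz) (hy.trans hρ2r) (by
        intro ψ hψ
        exact hk (fun y => ψ (y - zz)) (List.mem_map.2 ⟨ψ, hψ, rfl⟩))
      rw [add_sub_cancel, hAz] at h1
      refine ⟨?_, fun hfar => ?_⟩
      · have h2 : 0 ≤ c * ‖y - zz‖ ^ 2 := by positivity
        linarith [(hgA' y).2]
      · have h2 : (ρ2 / 2) ^ 2 ≤ ‖y - zz‖ ^ 2 := pow_le_pow_left₀ (by positivity) hfar 2
        have h3 : δ ≤ c * ‖y - zz‖ ^ 2 := by
          rw [hδ]
          nlinarith
        linarith [(hgA' y).2, hhi.1.1]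
  have h1 := geo_HR (F := F) hG hb hD (hphi F)
  rw [sub_sub_cancel] at h1
  exact h1

section low

open Module QuadraticForm
open Pool.Agent.H47.ST

variable {n : ℕ}

/-- **Case 2**: all large levels. -/
theorem lvm_low_all {S : ℕ → Pt n → ℝ} {f : ℕ → Pt n → Pt n} (hS : ∀ j, Gen (S j) (f j))
    (hn : 0 < n) {N : ℕ} [NeZero N] (hper : ∀ j, S (j + N) = S j)
    (hfper : ∀ j, f (j + N) = f j) (W : Finset (Pt n))
    (hW : ∀ w, flw f N w = w ↔ ∃ w' ∈ W, w - w' ∈ Zn n) {w : Pt n} (hw : flw f N w = w)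
    (hM : MeanIdx S f N w 0) {e : Fin (n * (N - 1)) → (Iz n N → ℝ)}
    (he : NegFam (fS S N) (zw f N w) e) (hSD : SDe (fS S N) (zw f N w) e) :
    ∃ m0 : ℕ, 0 < m0 ∧ ∀ m : ℕ, m0 ≤ m → ∀ [NeZero (m * N)],
      Pool.Agent.H88.TU.Low S (m * N) (n * (m * N) - n - 1) := by
  have hN : 0 < N := Nat.pos_of_ne_zero (NeZero.ne N)
  have hf := fS_smooth (n := n) hS N
  have hz : fderiv ℝ (fS S N) (zw f N w) = 0 := by
    rw [fS_crit hS, ActZ_zw, ActZ_oseq_zero]
    exact ⟨hw, rfl⟩
  obtain ⟨hh, ρ₀, hL1⟩ := level_one' hf hz (iso_of_fin hS W hW w) he hSD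
  obtain ⟨k0, hk0, hlow⟩ := low_abs_o hL1 hf.continuous (X0 n N) (Y0 n N) ⟨0, hn⟩
  refine ⟨2 * k0, by omega, ?_⟩
  intro m hm _
  have hm0 : 0 < m := by omega
  have i1 : NeZero m := ⟨hm0.ne'⟩
  obtain ⟨ck, hck, hact, hzw⟩ := chunks n m N
  have hcount : m * (n * (N - 1)) + (m - 1) * n = n * (m * N) - n := by
    obtain ⟨N', rfl⟩ : ∃ N', N = N' + 1 := ⟨N - 1, by omega⟩
    obtain ⟨k', rfl⟩ : ∃ k', m = k' + 1 := ⟨m - 1, by omega⟩
    simp only [Nat.add_sub_cancel]
    have h1 : n * ((k' + 1) * (N' + 1)) = ((k' + 1) * (n * N') + k' * n) + n := by ring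
    rw [h1, Nat.add_sub_cancel]
  have hperm := Pool.Agent.H88.TU.per_mul hper m
  have hfperm := Pool.Agent.H88.TU.per_mul hfper m
  have hzm : fderiv ℝ (fS S (m * N)) (zw f (m * N) w) = 0 := by
    rw [fS_crit hS, ActZ_zw, ActZ_oseq_zero]
    refine ⟨?_, rfl⟩
    have h1 := Pool.Agent.H47.QG.flw_mul hfper m w
    rw [h1]
    exact Function.iterate_fixed hw _
  have hge : n * (m * N) ≤ ind S f (m * N) w + n := by
    refine ind_ge S f hS N hN hper hfper w hw ?_ m hm0
    have h1 := (tendsto_add_atTop_iff_nat 1).2 hM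
    simpa using h1
  obtain ⟨Kl, hKl, c, hc, r, hr, hneg⟩ := neg_sub (fS_smooth hS (m * N)) hzm
    (b := n * (m * N) - n) (by rw [fS_sigNeg hS]; omega)
  have h1 := hlow m ⟨k0, by omega⟩ (le_refl _) (by simp only; omega) ck hck (fS S (m * N)) (hact S hper)
    (zw f (m * N) w) (hzw f hfper w hw) Kl (by rw [hcount]; exact hKl) c hc r hr hneg
    (Lc n (m * N)) (qK n (m * N)) (QK n (m * N)) (qK_continuous _ _)
    (QK_continuous _ _) (qK_per _ _) (QK_per _ _)
  rw [hcount] at h1
  exact h1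

end low

end Pool.Agent.H10.FU
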