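import Pool.Agent.H10.FU.Sd

/-!
# Project FULL: the prism homotopy between the pullbacks by two maps
-/

set_option autoImplicit false

namespace Pool.Agent.H10.FU

open Pool.Agent.H21.TU (K del sh Dep d pb Ch sh_zero sh_sh del_zero sh_del_le sh_del_ge del_gt)

variable {V W F : Type*} [Field F]

/-- the two maps as one map -/
def mm (g g' : V → W) (v : V) (j : ℕ) : W := if j = 0 then g v else g' v

/-- the prism operator (from the degree `p` to the degree `p - 1`) -/
def Pr (g g' : V → W) (p : ℕ) (c : K W F) : K V F := fun s =>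
  (-1) ^ (p + 1) * E (mm g g') p 2 c s (fun j => j)

theorem E_one_right (m : V → ℕ → W) (a : ℕ) {c : K W F} (hc : Dep a c) (s : ℕ → V)
    (t : ℕ → ℕ) : E m (a + 1) 1 c s t = c (fun k => m (s k) (t 0)) := by
  have h1 : E m (a + 1) 1 c s t = E (fun v j => m v j) (a + 1) 1 c s t := rfl
  have h2 : E (fun v (_ : ℕ) => v) (a + 1) 1 (pb (fun v => m v (t 0)) c) s t =
      pb (fun v => m v (t 0)) c s := E_fst_one a (hc.pb _) s t
  rw [E_pb] at h2
  rw [← E_mcongr (m := fun v (_ : ℕ) => m v (t 0)) (m' := m) (a + 1) 1 c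
    (fun i _ j hj => by
      have : j = 0 := by omega
      rw [this])]
  exact h2

/-- the prism homotopy -/
theorem Pr_d (g g' : V → W) (p : ℕ) {c : K W F} (hc : Dep p c) (s : ℕ → V) :
    pb g' c s - pb g c s = (if p = 0 then 0 else d (p - 1) (Pr g g' p c) s) +
      Pr g g' (p + 1) (d p c) s := by
  have h1 := E_d (mm g g') (p + 1) 2 (by omega) c (by
    rw [show p + 1 + 2 - 3 = p by omega]; exact hc) s (fun j => j)
  rw [show p + 1 + 2 - 3 = p by omega, Nat.add_sub_cancel, show 2 - 1 = 1 from rfl,
    Finset.sum_range_succ (fun j => (-1 : F) ^ j * E (mm g g') (p + 1) 1 c s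
      (del j (fun j => j))), Finset.sum_range_one, E_one_right _ p hc, E_one_right _ p hc] at h1
  have e0 : (del 0 (fun j => j) : ℕ → ℕ) 0 = 1 := by simp [del]
  have e1 : (del 1 (fun j => j) : ℕ → ℕ) 0 = 0 := by simp [del]
  rw [e0, e1] at h1
  have e2 : c (fun k => mm g g' (s k) 1) = pb g' c s := rfl
  have e3 : c (fun k => mm g g' (s k) 0) = pb g c s := rfl
  rw [e2, e3] at h1
  have e4 : (if p = 0 then 0 else d (p - 1) (Pr g g' p c) s) =
      (-1) ^ (p + 1) * ∑ i ∈ Finset.range (p + 1), (-1) ^ i *
        E (mm g g') p 2 c (del i s) (fun j => j) := by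
    rcases p with _ | p
    · simp [E_zero_left]
    · rw [if_neg (Nat.succ_ne_zero p), Nat.add_sub_cancel, Finset.mul_sum]
      unfold d
      refine Finset.sum_congr rfl fun i _ => ?_
      unfold Pr
      ring
  have e5 : Pr g g' (p + 1) (d p c) s = (-1) ^ (p + 1 + 1) *
      E (mm g g') (p + 1) 2 (d p c) s (fun j => j) := rfl
  rw [e4, e5, h1]
  have e6 : ((-1 : F) ^ p) * (-1) ^ p = 1 := by
    rw [← mul_pow]; norm_num
  simp only [pow_succ]
  linear_combination (pb g' c s - pb g c s) * (-e6)

theorem Pr_dep (g g' : V → W) (p : ℕ) (c : K W F) : Dep (p - 1) (Pr g g' p c) := by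
  intro s t h
  unfold Pr
  rw [E_arg (mm g g') p 2 c (s := s) (s' := t) (t := fun j => j) (t' := fun j => j)
    (fun i hi => h i (by omega)) (fun _ _ => rfl)]

/-- The prism operator uses only the sequences `g s_0, …, g s_j, g' s_j, …, g' s_{p-1}`. -/
theorem Pr_congr (g g' : V → W) (p : ℕ) {c c' : K W F} (hc : Dep p c) (hc' : Dep p c')
    (s : ℕ → V)
    (h : ∀ x : ℕ → W, (∃ j < p, ∀ k ≤ p, (k ≤ j → x k = g (s k)) ∧ (j < k → x k = g' (s (k - 1)))) →
      c x = c' x) :
    Pr g g' p c s = Pr g g' p c' s := by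
  unfold Pr
  congr 1
  refine E_congr _ _ _ (by rw [Nat.add_sub_cancel]; exact hc)
    (by rw [Nat.add_sub_cancel]; exact hc') _ _ fun x hx => h x ?_
  clear hc hc' h c c'
  -- paths after the second step
  have hB : ∀ (a : ℕ) (s : ℕ → V) (x : ℕ → W),
      Pa (mm g g') a 1 s (sh 1 (fun j => j)) x → ∀ k < a, x k = g' (s k) := by
    intro a
    induction a with
    | zero => intro s x _ k hk; omega
    | succ a ih =>
      intro s x hx k hk
      rw [show (1 : ℕ) = 0 + 1 from rfl, Pa] at hx
      rcases k with _ | k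
      · rw [hx.1]
        rfl
      · rcases hx.2 with h | h | h
        · omega
        · exact ih (sh 1 s) (sh 1 x) h k (by omega)
        · rw [Pa] at h; exact h.elim
  have hA : ∀ (a : ℕ) (s : ℕ → V) (x : ℕ → W), Pa (mm g g') a 2 s (fun j => j) x →
      ∃ j < a, ∀ k ≤ a, (k ≤ j → x k = g (s k)) ∧ (j < k → x k = g' (s (k - 1))) := by
    intro a
    induction a with
    | zero => intro s x hx; rw [Pa] at hx; exact hx.elim
    | succ a ih =>
      intro s x hx
      rw [show (2 : ℕ) = 1 + 1 from rfl, Pa] at hx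
      have h0 : x 0 = g (s 0) := hx.1
      rcases hx.2 with h | h | h
      · omega
      · obtain ⟨j, hj, h1⟩ := ih (sh 1 s) (sh 1 x) h
        refine ⟨j + 1, by omega, fun k hk => ⟨fun hkj => ?_, fun hjk => ?_⟩⟩
        · rcases k with _ | k
          · exact h0
          · exact (h1 k (by omega)).1 (by omega)
        · rcases k with _ | k
          · omega
          · have h2 := (h1 k (by omega)).2 (by omega)
            have e1 : sh 1 x k = x (k + 1) := rfl
            have e2 : sh 1 s (k - 1) = s (k + 1 - 1) := by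
              change s (k - 1 + 1) = _
              congr 1
              omega
            rw [e1, e2] at h2
            exact h2
      · refine ⟨0, by omega, fun k hk => ⟨fun hkj => ?_, fun hjk => ?_⟩⟩
        · have : k = 0 := by omega
          rw [this]; exact h0
        · have h2 := hB (a + 1) s (sh 1 x) h (k - 1) (by omega)
          have e1 : sh 1 x (k - 1) = x k := by
            change x (k - 1 + 1) = _
            congr 1
            omega
          rw [e1] at h2
          exact h2
  exact hA p s x hx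

end Pool.Agent.H10.FU
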