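import Pool.Agent.H10.FU.Ez

/-!
# Project FULL: edgewise subdivision of the Kuhn grids
-/

set_option autoImplicit false

namespace Pool.Agent.H10.FU

open Pool.Agent.H21.TU (K del sh Dep d pb Ch sh_zero sh_sh del_zero sh_del_le sh_del_ge del_gt)

section general

variable {V U W F : Type*} [Field F] (m : V → U → W)

theorem E_arg (a b : ℕ) (c : K W F) {s s' : ℕ → V} {t t' : ℕ → U} (hs : ∀ i < a, s i = s' i)
    (ht : ∀ j < b, t j = t' j) : E m a b c s t = E m a b c s' t' := by
  induction a, b, c, s, t using E.induct (m := m) generalizing s' t' with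
  | case1 b c s t => simp [E_zero_left]
  | case2 a c s t => simp [E_zero_right]
  | case3 a b c s t ih1 ih2 =>
    rw [E_succ, E_succ, ← hs 0 (Nat.succ_pos _), ← ht 0 (Nat.succ_pos _)]
    rw [ih1 (s' := sh 1 s') (t' := t') (fun i hi => hs (i + 1) (by omega)) ht,
      ih2 (s' := s') (t' := sh 1 t') hs (fun j hj => ht (j + 1) (by omega))]

theorem E_mcongr {m m' : V → U → W} (a b : ℕ) (c : K W F) {s : ℕ → V} {t : ℕ → U}
    (h : ∀ i < a, ∀ j < b, m (s i) (t j) = m' (s i) (t j)) : E m a b c s t = E m' a b c s t := by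
  induction a, b, c, s, t using E.induct (m := m) with
  | case1 b c s t => simp [E_zero_left]
  | case2 a c s t => simp [E_zero_right]
  | case3 a b c s t ih1 ih2 =>
    rw [E_succ, E_succ, ← h 0 (Nat.succ_pos _) 0 (Nat.succ_pos _)]
    rw [ih1 (fun i hi j hj => h (i + 1) (by omega) j hj),
      ih2 (fun i hi j hj => h i hi (j + 1) (by omega))]

theorem fx_pb {W' : Type*} (g : W → W') (c : K W' F) (w : W) :
    fx w (pb g c) = pb g (fx (g w) c) := by
  funext x
  unfold fx pb
  congr 1
  funext j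
  rcases j with _ | j <;> rfl

theorem E_pb {W' : Type*} (g : W → W') (a b : ℕ) (c : K W' F) (s : ℕ → V) (t : ℕ → U) :
    E m a b (pb g c) s t = E (fun v w => g (m v w)) a b c s t := by
  obtain ⟨N, hN⟩ : ∃ N, a + b = N := ⟨_, rfl⟩
  induction N generalizing a b c s t with
  | zero =>
    have : a = 0 := by omega
    subst this
    rw [E_zero_left, E_zero_left]
  | succ N ih =>
    rcases a with _ | a
    · rw [E_zero_left, E_zero_left]
    rcases b with _ | b
    · rw [E_zero_right, E_zero_right]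
    rw [E_succ, E_succ, fx_pb, ih a (b + 1) _ _ _ (by omega), ih (a + 1) b _ _ _ (by omega)]
    rfl

/-- the cochain vanishes on degenerate sequences -/
def Nd (p : ℕ) (c : K W F) : Prop := ∀ x i, i < p → x i = x (i + 1) → c x = 0

theorem Nd.fx {p : ℕ} {c : K W F} (h : Nd (p + 1) c) (w : W) : Nd p (fx w c) := by
  intro x i hi hx
  refine h _ (i + 1) (by omega) ?_
  rw [cns_succ, cns_succ]
  exact hx

theorem E_fst_one (a : ℕ) {c : K V F} (hc : Dep a c) (s : ℕ → V) (t : ℕ → U) :
    E (fun v _ => v) (a + 1) 1 c s t = c s := by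
  induction a generalizing c s with
  | zero =>
    rw [E_one_one]
    refine hc _ _ fun i hi => ?_
    have : i = 0 := by omega
    rw [this]
  | succ a ih =>
    rw [show (1 : ℕ) = 0 + 1 from rfl, E_succ, if_neg (by omega), E_zero_right, zero_add, mul_zero,
      add_zero, show (0 : ℕ) + 1 = 1 from rfl, ih (fx_dep hc _)]
    unfold FU.fx
    rw [cns_sh]

theorem E_fst_two (a b : ℕ) {c : K V F} (hc : Dep (a + b + 1) c) (hn : Nd (a + b + 1) c)
    (s : ℕ → V) (t : ℕ → U) : E (fun v _ => v) (a + 1) (b + 2) c s t = 0 := by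
  obtain ⟨N, hN⟩ : ∃ N, a + b = N := ⟨_, rfl⟩
  induction N generalizing a b c s t with
  | zero =>
    have h1 : a = 0 := by omega
    have h2 : b = 0 := by omega
    subst h1 h2
    rw [show (0 : ℕ) + 2 = 1 + 1 from rfl, E_succ, if_neg (by omega), E_zero_left,
      E_fst_one 0 (fx_dep hc _)]
    have h3 : FU.fx (s 0) c s = 0 := hn _ 0 (by omega) rfl
    rw [h3]
    ring
  | succ N ih =>
    rw [show b + 2 = (b + 1) + 1 from rfl, E_succ, if_neg (by omega)]
    have e1 : E (fun v _ => v) a (b + 1 + 1) (FU.fx (s 0) c) (sh 1 s) t = 0 := by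
      rcases a with _ | a
      · rw [E_zero_left]
      · exact ih a b (fx_dep (hc.mono (by omega)) _) (Nd.fx (p := a + b + 1)
          (by convert hn using 1; omega) _) _ _ (by omega)
    have e2 : E (fun v _ => v) (a + 1) (b + 1) (FU.fx (s 0) c) s (sh 1 t) = 0 := by
      rcases b with _ | b
      · rw [show (0 : ℕ) + 1 = 1 from rfl, E_fst_one a (fx_dep hc _)]
        exact hn _ 0 (by omega) rfl
      · exact ih a b (fx_dep (hc.mono (by omega)) _) (Nd.fx (p := a + b + 1)
          (by convert hn using 1; omega) _) _ _ (by omega)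
    rw [e1, e2]
    ring

end general

section grid

variable {ι F : Type*} [Field F]

/-- **edgewise subdivision** -/
def SD (p : ℕ) (c : K (ι → ℤ) F) : K (ι → ℤ) F := fun s =>
  ∑ a ∈ Finset.range (p + 1), E (fun v w => v + w) (a + 1) (p - a + 1) c s (sh a s)

theorem SD_dep (p : ℕ) (c : K (ι → ℤ) F) : Dep p (SD p c) := by
  intro s t h
  unfold SD
  refine Finset.sum_congr rfl fun a ha => ?_
  rw [Finset.mem_range] at ha
  exact E_arg _ _ _ _ (fun i hi => h i (by omega)) (fun j hj => h (j + a) (by omega))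

theorem SD_add (p : ℕ) (c c' : K (ι → ℤ) F) : SD p (c + c') = SD p c + SD p c' := by
  funext s
  simp only [SD, Pi.add_apply, E_add, Finset.sum_add_distrib]

theorem SD_smul (p : ℕ) (r : F) (c : K (ι → ℤ) F) : SD p (r • c) = r • SD p c := by
  funext s
  simp only [SD, Pi.smul_apply, smul_eq_mul, E_smul, Finset.mul_sum]

/-- the subdivision commutes with the coboundary -/
theorem SD_d (p : ℕ) {c : K (ι → ℤ) F} (hc : Dep p c) : SD (p + 1) (d p c) = d p (SD p c) := by
  funext s
  have h1 : ∀ a ∈ Finset.range (p + 2),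
      E (fun v w : ι → ℤ => v + w) (a + 1) (p + 1 - a + 1) (d p c) s (sh a s) =
      (∑ i ∈ Finset.range a, (-1) ^ i *
          E (fun v w : ι → ℤ => v + w) a (p + 1 - a + 1) c (del i s) (sh a s) +
        (-1) ^ a * ∑ j ∈ Finset.range (p + 1 - a), (-1) ^ (j + 1) *
          E (fun v w : ι → ℤ => v + w) (a + 1) (p + 1 - a) c s (del (j + 1) (sh a s))) +
      ((-1) ^ a * E (fun v w : ι → ℤ => v + w) a (p + 1 - a + 1) c (del a s) (sh a s) +
        (-1) ^ a * E (fun v w : ι → ℤ => v + w) (a + 1) (p + 1 - a) c s (sh (a + 1) s)) := by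
    intro a ha
    rw [Finset.mem_range] at ha
    have e0 : a + 1 + (p + 1 - a + 1) - 3 = p := by omega
    have h2 := E_d (fun v w : ι → ℤ => v + w) (a + 1) (p + 1 - a + 1) (by omega) c
      (by rw [e0]; exact hc) s (sh a s)
    rw [e0] at h2
    rw [h2, Finset.sum_range_succ, Finset.sum_range_succ']
    simp only [Nat.add_sub_cancel, del_zero, sh_sh, pow_zero, one_mul]
    rw [pow_succ]
    ring
  unfold SD
  rw [show p + 1 + 1 = p + 2 from rfl, Finset.sum_congr rfl h1, Finset.sum_add_distrib]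
  -- the telescoping part
  have h3 : ∑ a ∈ Finset.range (p + 2),
      ((-1) ^ a * E (fun v w : ι → ℤ => v + w) a (p + 1 - a + 1) c (del a s) (sh a s) +
        (-1) ^ a * E (fun v w : ι → ℤ => v + w) (a + 1) (p + 1 - a) c s (sh (a + 1) s)) = 0 := by
    rw [Finset.sum_add_distrib, Finset.sum_range_succ', Finset.sum_range_succ
      (fun a => (-1 : F) ^ a * E (fun v w : ι → ℤ => v + w) (a + 1) (p + 1 - a) c s (sh (a + 1) s)),
      E_zero_left, Nat.sub_self, E_zero_right, mul_zero, mul_zero, add_zero, add_zero,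
      ← Finset.sum_add_distrib]
    refine Finset.sum_eq_zero fun a ha => ?_
    rw [Finset.mem_range] at ha
    rw [show p + 1 - (a + 1) + 1 = p + 1 - a by omega,
      E_arg (fun v w : ι → ℤ => v + w) (a + 1) (p + 1 - a) c (s := del (a + 1) s) (s' := s)
        (t := sh (a + 1) s) (t' := sh (a + 1) s) (fun i hi => del_gt (p := i) (by omega) s i le_rfl)
        (fun _ _ => rfl), pow_succ]
    ring
  rw [h3, add_zero, Finset.sum_add_distrib, Finset.sum_range_succ', Finset.sum_range_zero,
    add_zero, Finset.sum_range_succ (fun a => (-1 : F) ^ a * ∑ j ∈ Finset.range (p + 1 - a),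
      (-1 : F) ^ (j + 1) * E (fun v w : ι → ℤ => v + w) (a + 1) (p + 1 - a) c s (del (j + 1) (sh a s))),
    Nat.sub_self, Finset.sum_range_zero, mul_zero, add_zero, ← Finset.sum_add_distrib]
  -- exchange the sums on the right
  change _ = ∑ i ∈ Finset.range (p + 2), (-1) ^ i * ∑ a ∈ Finset.range (p + 1),
    E (fun v w : ι → ℤ => v + w) (a + 1) (p - a + 1) c (del i s) (sh a (del i s))
  simp only [Finset.mul_sum]
  rw [Finset.sum_comm]
  refine Finset.sum_congr rfl fun a ha => ?_
  rw [Finset.mem_range] at ha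
  rw [show p + 1 - (a + 1) + 1 = p - a + 1 by omega, show p + 1 - a = p - a + 1 by omega,
    show p + 2 = (a + 1) + (p - a + 1) by omega, Finset.sum_range_add _ (a + 1) (p - a + 1)]
  congr 1
  · refine Finset.sum_congr rfl fun i hi => ?_
    rw [Finset.mem_range] at hi
    rw [sh_del_le (by omega)]
  · refine Finset.sum_congr rfl fun j hj => ?_
    rw [sh_del_ge (by omega), show a + 1 + j - a = j + 1 by omega,
      E_arg (fun v w : ι → ℤ => v + w) (a + 1) (p - a + 1) c (s := del (a + 1 + j) s) (s' := s)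
        (t := del (j + 1) (sh a s)) (t' := del (j + 1) (sh a s))
        (fun i hi => del_gt (p := i) (by omega) s i le_rfl) (fun _ _ => rfl),
      show a + 1 + j = a + (j + 1) by omega, pow_add]
    ring

/-- paths of monotone sequences -/
theorem Pa_mono (a b : ℕ) {s t : ℕ → ι → ℤ} (hs : ∀ i j, i ≤ j → j < a → s i ≤ s j)
    (ht : ∀ i j, i ≤ j → j < b → t i ≤ t j) {x : ℕ → ι → ℤ}
    (h : Pa (fun v w => v + w) a b s t x) :
    (∀ k ≤ a + b - 2, s 0 + t 0 ≤ x k ∧ x k ≤ s (a - 1) + t (b - 1)) ∧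
      ∀ k l, k ≤ l → l ≤ a + b - 2 → x k ≤ x l := by
  obtain ⟨N, hN⟩ : ∃ N, a + b = N := ⟨_, rfl⟩
  induction N generalizing a b s t x with
  | zero =>
    have : a = 0 := by omega
    subst this
    rw [Pa] at h
    exact h.elim
  | succ N ih =>
    rcases a with _ | a
    · rw [Pa] at h
      exact h.elim
    rcases b with _ | b
    · rw [Pa] at h
      exact h.elim
    rw [Pa] at h
    obtain ⟨h0, h | h | h⟩ := h
    · obtain ⟨rfl, rfl⟩ := h
      refine ⟨fun k hk => ?_, fun k l hkl hl => ?_⟩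
      · have : k = 0 := by omega
        subst this
        rw [h0]
        exact ⟨le_rfl, le_rfl⟩
      · have h1 : k = 0 := by omega
        have h2 : l = 0 := by omega
        rw [h1, h2]
    · have ha : 0 < a := by
        rcases a with _ | a
        · rw [Pa] at h; exact h.elim
        · exact Nat.succ_pos _
      obtain ⟨i1, i2⟩ := ih a (b + 1) (fun i j hij hj => hs (i + 1) (j + 1) (by omega) (by omega))
        ht h (by omega)
      have i1' : ∀ k, 1 ≤ k → k ≤ a + 1 + (b + 1) - 2 → s 1 + t 0 ≤ x k ∧ x k ≤ s a + t b := by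
        intro k hk1 hk2
        have h1 : s 1 + t 0 ≤ x (k - 1 + 1) ∧ x (k - 1 + 1) ≤ s (a - 1 + 1) + t (b + 1 - 1) :=
          i1 (k - 1) (by omega)
        rw [show k - 1 + 1 = k by omega, show a - 1 + 1 = a by omega, Nat.add_sub_cancel] at h1
        exact h1
      have h01 : x 0 ≤ s 1 + t 0 := by
        rw [h0]
        exact add_le_add_left (hs 0 1 (by omega) (by omega)) _
      have h0b : x 0 ≤ s a + t b := by
        rw [h0]
        exact add_le_add (hs 0 a (by omega) (by omega)) (ht 0 b (by omega) (by omega))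
      refine ⟨fun k hk => ?_, fun k l hkl hl => ?_⟩
      · rcases Nat.eq_zero_or_pos k with rfl | hk0
        · refine ⟨by rw [h0], h0b⟩
        · exact ⟨(add_le_add_left (hs 0 1 (by omega) (by omega)) _).trans (i1' k hk0 hk).1,
            (i1' k hk0 hk).2⟩
      · rcases Nat.eq_zero_or_pos k with rfl | hk0
        · rcases Nat.eq_zero_or_pos l with rfl | hl0
          · exact le_rfl
          · exact h01.trans (i1' l hl0 hl).1
        · have h1 : x (k - 1 + 1) ≤ x (l - 1 + 1) := i2 (k - 1) (l - 1) (by omega) (by omega)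
          rwa [show k - 1 + 1 = k by omega, show l - 1 + 1 = l by omega] at h1
    · have hb : 0 < b := by
        rcases b with _ | b
        · rw [Pa] at h; exact h.elim
        · exact Nat.succ_pos _
      obtain ⟨i1, i2⟩ := ih (a + 1) b hs
        (fun i j hij hj => ht (i + 1) (j + 1) (by omega) (by omega)) h (by omega)
      have i1' : ∀ k, 1 ≤ k → k ≤ a + 1 + (b + 1) - 2 → s 0 + t 1 ≤ x k ∧ x k ≤ s a + t b := by
        intro k hk1 hk2
        have h1 : s 0 + t 1 ≤ x (k - 1 + 1) ∧ x (k - 1 + 1) ≤ s (a + 1 - 1) + t (b - 1 + 1) :=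
          i1 (k - 1) (by omega)
        rw [show k - 1 + 1 = k by omega, show b - 1 + 1 = b by omega, Nat.add_sub_cancel] at h1
        exact h1
      have h01 : x 0 ≤ s 0 + t 1 := by
        rw [h0]
        exact add_le_add_right (ht 0 1 (by omega) (by omega)) _
      have h0b : x 0 ≤ s a + t b := by
        rw [h0]
        exact add_le_add (hs 0 a (by omega) (by omega)) (ht 0 b (by omega) (by omega))
      refine ⟨fun k hk => ?_, fun k l hkl hl => ?_⟩
      · rcases Nat.eq_zero_or_pos k with rfl | hk0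
        · refine ⟨by rw [h0], h0b⟩
        · exact ⟨(add_le_add_right (ht 0 1 (by omega) (by omega)) _).trans (i1' k hk0 hk).1,
            (i1' k hk0 hk).2⟩
      · rcases Nat.eq_zero_or_pos k with rfl | hk0
        · rcases Nat.eq_zero_or_pos l with rfl | hl0
          · exact le_rfl
          · exact h01.trans (i1' l hl0 hl).1
        · have h1 : x (k - 1 + 1) ≤ x (l - 1 + 1) := i2 (k - 1) (l - 1) (by omega) (by omega)
          rwa [show k - 1 + 1 = k by omega, show l - 1 + 1 = l by omega] at h1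

/-- the values of the subdivision use only the fine simplices inside -/
theorem SD_congr (p : ℕ) {c c' : K (ι → ℤ) F} (hc : Dep p c) (hc' : Dep p c')
    {s : ℕ → ι → ℤ} (hs : Ch p s)
    (h : ∀ x, Ch p x → (∀ k ≤ p, s 0 + s 0 ≤ x k ∧ x k ≤ s p + s p) → c x = c' x) :
    SD p c s = SD p c' s := by
  unfold SD
  refine Finset.sum_congr rfl fun a ha => ?_
  rw [Finset.mem_range] at ha
  have e0 : a + 1 + (p - a + 1) - 2 = p := by omega
  refine E_congr _ _ _ (by rw [e0]; exact hc) (by rw [e0]; exact hc') _ _ fun x hx => ?_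
  have h1 := Pa_mono (a + 1) (p - a + 1) (s := s) (t := sh a s)
    (fun i j hij hj => (hs i j hij (by omega)).1)
    (fun i j hij hj => (hs (i + a) (j + a) (by omega) (by omega)).1) hx
  rw [e0] at h1
  simp only [Nat.add_sub_cancel] at h1
  have e1 : sh a s 0 = s a := by
    change s (0 + a) = s a
    congr 1; omega
  have e2 : sh a s (p - a) = s p := by
    change s (p - a + a) = s p
    congr 1; omega
  rw [e1, e2] at h1
  refine h x (fun k l hkl hl => ⟨h1.2 k l hkl hl, ?_⟩) fun k hk => ⟨?_, ?_⟩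
  · calc x l ≤ s a + s p := (h1.1 l hl).2
      _ ≤ s a + (s 0 + 1) := add_le_add_right (hs 0 p (by omega) le_rfl).2 _
      _ = s 0 + s a + 1 := by abel
      _ ≤ x k + 1 := add_le_add_left (h1.1 k (hkl.trans hl)).1 _
  · exact (add_le_add_right (hs 0 a (by omega) (by omega)).1 _).trans (h1.1 k hk).1
  · exact (h1.1 k hk).2.trans (add_le_add_left (hs a p (by omega) le_rfl).1 _)

/-- half, rounded down -/
def hf (v : ι → ℤ) : ι → ℤ := fun i => v i / 2

theorem hf_add {v w : ι → ℤ} (h1 : v ≤ w) (h2 : w ≤ v + 1) : hf (v + w) = v := by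
  funext i
  have h3 : v i ≤ w i := h1 i
  have h4 : w i ≤ v i + 1 := h2 i
  simp only [hf, Pi.add_apply]
  omega

/-- the subdivision is a left inverse of the pullback by `hf` -/
theorem SD_hf (p : ℕ) {c : K (ι → ℤ) F} (hc : Dep p c) (hn : Nd p c) {s : ℕ → ι → ℤ}
    (hs : Ch p s) : SD p (pb hf c) s = c s := by
  unfold SD
  have h1 : ∀ a ∈ Finset.range (p + 1), E (fun v w : ι → ℤ => v + w) (a + 1) (p - a + 1)
      (pb hf c) s (sh a s) = E (fun v _ => v) (a + 1) (p - a + 1) c s (sh a s) := by
    intro a ha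
    rw [Finset.mem_range] at ha
    rw [E_pb]
    refine E_mcongr _ _ _ fun i hi j hj => ?_
    exact hf_add (hs i (j + a) (by omega) (by omega)).1 (hs i (j + a) (by omega) (by omega)).2
  rw [Finset.sum_congr rfl h1, Finset.sum_range_succ, Finset.sum_eq_zero, zero_add, Nat.sub_self,
    zero_add, E_fst_one p hc]
  intro a ha
  rw [Finset.mem_range] at ha
  have e1 : p - a + 1 = (p - a - 1) + 2 := by omega
  have e2 : a + (p - a - 1) + 1 = p := by omega
  rw [e1]
  exact E_fst_two a (p - a - 1) (by rw [e2]; exact hc) (by rw [e2]; exact hn) _ _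

/-- translations -/
theorem SD_tr (p : ℕ) {c : K (ι → ℤ) F} (l : ι → ℤ)
    (s : ℕ → ι → ℤ) : SD p c (fun k => s k + l) = SD p (pb (fun v => v + (l + l)) c) s := by
  unfold SD
  refine Finset.sum_congr rfl fun a _ => ?_
  rw [E_pb]
  have h : ∀ (a b : ℕ) (c : K (ι → ℤ) F) (s t : ℕ → ι → ℤ),
      E (fun v w => v + w) a b c (fun k => s k + l) (fun k => t k + l) =
        E (fun v w => v + w + (l + l)) a b c s t := by
    intro a b c s t
    obtain ⟨N, hN⟩ : ∃ N, a + b = N := ⟨_, rfl⟩
    induction N generalizing a b c s t with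
    | zero =>
      have : a = 0 := by omega
      subst this
      rw [E_zero_left, E_zero_left]
    | succ N ih =>
      rcases a with _ | a
      · rw [E_zero_left, E_zero_left]
      rcases b with _ | b
      · rw [E_zero_right, E_zero_right]
      have e : s 0 + l + (t 0 + l) = s 0 + t 0 + (l + l) := by abel
      rw [E_succ, E_succ]
      simp only [e]
      have i1 := ih a (b + 1) (fx (s 0 + t 0 + (l + l)) c) (sh 1 s) t (by omega)
      have i2 := ih (a + 1) b (fx (s 0 + t 0 + (l + l)) c) s (sh 1 t) (by omega)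
      rw [← i1, ← i2]
      rfl
  exact h (a + 1) (p - a + 1) c s (sh a s)

theorem SDn_dep (p k : ℕ) {c : K (ι → ℤ) F} (hc : Dep p c) : Dep p ((SD p)^[k] c) := by
  rcases k with _ | k
  · exact hc
  · rw [Function.iterate_succ_apply']
    exact SD_dep p _

theorem SDn_d (p k : ℕ) {c : K (ι → ℤ) F} (hc : Dep p c) :
    (SD (p + 1))^[k] (d p c) = d p ((SD p)^[k] c) := by
  induction k with
  | zero => rfl
  | succ k ih =>
    rw [Function.iterate_succ_apply', Function.iterate_succ_apply', ih, SD_d p (SDn_dep p k hc)]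

/-- iterated subdivision: the values use only the fine simplices inside -/
theorem SDn_congr (p k : ℕ) {c c' : K (ι → ℤ) F} (hc : Dep p c) (hc' : Dep p c')
    {s : ℕ → ι → ℤ} (hs : Ch p s)
    (h : ∀ x, Ch p x → (∀ i ≤ p, (2 : ℤ) ^ k • s 0 ≤ x i ∧ x i ≤ (2 : ℤ) ^ k • s p) →
      c x = c' x) :
    (SD p)^[k] c s = (SD p)^[k] c' s := by
  induction k generalizing c c' with
  | zero =>
    have e : ∀ v : ι → ℤ, (2 : ℤ) ^ 0 • v = v := fun v => by rw [pow_zero, one_smul]
    refine h s hs fun i hi => ?_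
    rw [e, e]
    exact ⟨(hs 0 i (by omega) hi).1, (hs i p hi le_rfl).1⟩
  | succ k ih =>
    rw [Function.iterate_succ_apply, Function.iterate_succ_apply]
    refine ih (SD_dep p c) (SD_dep p c') fun x hx hb => SD_congr p hc hc' hx fun y hy hyb => ?_
    refine h y hy fun i hi => ?_
    have e : ∀ v : ι → ℤ, (2 : ℤ) ^ (k + 1) • v = (2 : ℤ) ^ k • v + (2 : ℤ) ^ k • v := by
      intro v
      rw [← add_smul, pow_succ]
      congr 1
      ring
    rw [e, e]
    exact ⟨(add_le_add (hb 0 (Nat.zero_le _)).1 (hb 0 (Nat.zero_le _)).1).trans (hyb i hi).1,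
      (hyb i hi).2.trans (add_le_add (hb p le_rfl).2 (hb p le_rfl).2)⟩

/-- division by `2^k`, rounded down -/
def hfn (k : ℕ) (v : ι → ℤ) : ι → ℤ := fun i => v i / 2 ^ k

theorem hfn_succ (k : ℕ) (v : ι → ℤ) : hfn (k + 1) v = hfn k (hf v) := by
  funext i
  simp only [hfn, hf]
  rw [Int.ediv_ediv_of_nonneg (by norm_num), pow_succ, mul_comm]

theorem SDn_hf (p k : ℕ) {c : K (ι → ℤ) F} (hc : Dep p c) (hn : Nd p c) {s : ℕ → ι → ℤ}
    (hs : Ch p s) : (SD p)^[k] (pb (hfn k) c) s = c s := by
  induction k with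
  | zero =>
    change c (fun j => hfn 0 (s j)) = c s
    congr 1
    funext j i
    simp [hfn]
  | succ k ih =>
    have h1 : pb (hfn (k + 1)) c = pb hf (pb (hfn k) c) := by
      funext x
      unfold pb
      congr 1
      funext j
      exact hfn_succ k (x j)
    have hd : Dep p (pb (hfn k) c) := hc.pb _
    have hnn : Nd p (pb (hfn k) c) := by
      intro x i hi hx
      exact hn _ i hi (by rw [hx])
    rw [Function.iterate_succ_apply, h1]
    rw [SDn_congr p k (SD_dep p _) hd hs (fun x hx _ => SD_hf p hd hnn hx), ih]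

theorem SDn_tr (p k : ℕ) {c : K (ι → ℤ) F} (l : ι → ℤ) (s : ℕ → ι → ℤ) :
    (SD p)^[k] c (fun j => s j + l) = (SD p)^[k] (pb (fun v => v + (2 : ℤ) ^ k • l) c) s := by
  induction k generalizing c with
  | zero =>
    rw [pow_zero, one_smul]
    rfl
  | succ k ih =>
    rw [Function.iterate_succ_apply, Function.iterate_succ_apply, ih]
    have h1 : pb (fun v => v + (2 : ℤ) ^ k • l) (SD p c) =
        SD p (pb (fun v => v + (2 : ℤ) ^ (k + 1) • l) c) := by
      funext x
      change SD p c (fun j => x j + (2 : ℤ) ^ k • l) = _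
      rw [SD_tr, ← add_smul]
      have e : (2 : ℤ) ^ k + 2 ^ k = 2 ^ (k + 1) := by rw [pow_succ]; ring
      rw [e]
    rw [h1]

end grid

end Pool.Agent.H10.FU
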